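import Pool.Agent.ISO.Core

/-!
# LKN/Base: long knots in `C × R`
-/

open scoped ContDiff Topology
open Set Filter

namespace Pool.Agent.LKN

open Pool.Agent.ISO (Lat Move core_arc)

/-- a long knot: smooth, immersed, embedded, vertical for `R ≤ |l|` -/
structure Long (R : ℝ) (k : ℝ → ℂ × ℝ) : Prop where
  smooth : ContDiff ℝ ∞ k
  imm : ∀ l, deriv k l ≠ 0
  inj : Function.Injective k
  ends : ∀ l, R ≤ |l| → k l = (0, l)

theorem Long.mono {R R' : ℝ} {k : ℝ → ℂ × ℝ} (h : Long R k) (hR : R ≤ R') : Long R' k :=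
  ⟨h.smooth, h.imm, h.inj, fun l hl => h.ends l (hR.trans hl)⟩

theorem lat_bot : Lat (⊥ : AddSubgroup (ℂ × ℝ)) := by
  intro R
  refine (Set.finite_singleton (0 : ℂ × ℝ)).subset ?_
  rintro m ⟨hm, -⟩
  exact hm

/-- **isotopy extension for long knots** -/
theorem iso_long {R : ℝ} {k : ℝ → ℝ → ℂ × ℝ}
    (hk : ∀ s ∈ Icc (0 : ℝ) 1, ∀ l, ContDiffAt ℝ ∞ (fun q : ℝ × ℝ => k q.1 q.2) (s, l))
    (h : ∀ s ∈ Icc (0 : ℝ) 1, Long R (k s)) :
    ∃ F : Equiv.Perm (ℂ × ℝ), Move ⊥ univ F ∧ ∀ l, F (k 0 l) = k 1 l := by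
  have h0 : (0 : ℝ) ∈ Icc (0 : ℝ) 1 := ⟨le_rfl, zero_le_one⟩
  have h1 : (1 : ℝ) ∈ Icc (0 : ℝ) 1 := ⟨zero_le_one, le_rfl⟩
  wlog hR : 0 ≤ R generalizing R
  · exact this (R := 0) (fun s hs => (h s hs).mono (not_le.1 hR).le) le_rfl
  let T : Set (ℂ × ℝ) := {x | x.1 = 0 ∧ R + 2 ≤ |x.2|}
  have hT : IsClosed T := by
    refine IsClosed.inter ?_ ?_
    · exact isClosed_eq continuous_fst continuous_const
    · exact isClosed_le continuous_const continuous_snd.abs
  have hend : ∀ s ∈ Icc (0 : ℝ) 1, ∀ l, R ≤ |l| → k s l = (0, l) := fun s hs l hl =>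
    (h s hs).ends l hl
  obtain ⟨F, hF, hF'⟩ := core_arc (E := ℂ × ℝ) lat_bot (O := Tᶜ) hT.isOpen_compl (k := k)
    (a₀ := -R - 3) (a := -R - 2) (a' := -R - 1) (b' := R + 1) (b := R + 2) (b₀ := R + 3)
    (by linarith) (by linarith) (by linarith) (by linarith)
    (fun s hs l _ => hk s hs l)
    (by
      intro s hs l _ hl
      have hl' : R ≤ |l| := by
        rcases hl with hl | hl
        · rw [abs_of_neg (by linarith)]; linarith
        · rw [abs_of_pos (by linarith)]; linarith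
      rw [hend s hs l hl', hend 0 h0 l hl'])
    (by
      rintro s hs l hl ⟨hx1, hx2⟩
      have e1 : k s (k s l).2 = k s l := by
        rw [hend s hs _ (by linarith)]
        exact Prod.ext hx1.symm rfl
      have e2 := (h s hs).inj e1
      rw [e2] at hx2
      have : |l| ≤ R + 1 := abs_le.2 ⟨by linarith [hl.1], hl.2⟩
      linarith)
    (fun s hs l _ => (h s hs).imm l)
    (by
      intro s hs l _ l' _ m hm he
      rw [AddSubgroup.mem_bot] at hm
      rw [hm, add_zero] at he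
      exact (h s hs).inj he)
  refine ⟨F, hF.mono (subset_univ _), ?_⟩
  intro l
  by_cases hl : |l| ≤ R + 2
  · exact hF' l ⟨by linarith [(abs_le.1 hl).1], (abs_le.1 hl).2⟩
  · have hl' : R ≤ |l| := by linarith [not_le.1 hl]
    rw [hend 0 h0 l hl', hend 1 h1 l hl']
    obtain ⟨C, -, hC, hC'⟩ := hF.supp
    apply hC'
    intro m hm hc
    rw [AddSubgroup.mem_bot] at hm
    rw [hm, add_zero] at hc
    exact hC hc ⟨rfl, (not_le.1 hl).le⟩

/-- the lower Lipschitz bound of a long knot -/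
theorem Long.lip {R : ℝ} {k : ℝ → ℂ × ℝ} (h : Long R k) :
    ∃ c > 0, ∀ l l', c * |l - l'| ≤ ‖k l - k l'‖ := by
  have hloc : ∀ q : ℝ × ℝ, ∃ t ∈ 𝓝 q, ∃ c > 0, ∀ p ∈ t, c * |p.1 - p.2| ≤ ‖k p.1 - k p.2‖ := by
    rintro ⟨a, b⟩
    by_cases hab : a = b
    · subst hab
      have hd : HasStrictDerivAt k (deriv k a) a :=
        h.smooth.contDiffAt.hasStrictDerivAt (by simp)
      have hpos : 0 < ‖deriv k a‖ := norm_pos_iff.2 (h.imm a)
      have h1 := hd.hasStrictFDerivAt.isLittleO.def (half_pos hpos)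
      refine ⟨_, h1, ‖deriv k a‖ / 2, half_pos hpos, ?_⟩
      intro p hp
      have hp' : ‖k p.1 - k p.2 - (p.1 - p.2) • deriv k a‖ ≤ ‖deriv k a‖ / 2 * ‖p.1 - p.2‖ := by
        simpa using hp
      have h2 : ‖(p.1 - p.2) • deriv k a‖ = |p.1 - p.2| * ‖deriv k a‖ := by
        rw [norm_smul, Real.norm_eq_abs]
      have h3 := norm_sub_norm_le ((p.1 - p.2) • deriv k a) (k p.1 - k p.2)
      rw [norm_sub_rev ((p.1 - p.2) • deriv k a)] at h3
      rw [Real.norm_eq_abs] at hp'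
      rw [h2] at h3
      nlinarith
    · have hne : k a ≠ k b := fun he => hab (h.inj he)
      have hpos : 0 < ‖k a - k b‖ := norm_pos_iff.2 (sub_ne_zero.2 hne)
      have hc1 : ContinuousAt (fun p : ℝ × ℝ => ‖k p.1 - k p.2‖) (a, b) :=
        ((h.smooth.continuous.comp continuous_fst).sub
          (h.smooth.continuous.comp continuous_snd)).norm.continuousAt
      have hc2 : ContinuousAt (fun p : ℝ × ℝ => |p.1 - p.2|) (a, b) :=
        (continuous_fst.sub continuous_snd).abs.continuousAt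
      have e1 : ∀ᶠ p : ℝ × ℝ in 𝓝 (a, b), ‖k a - k b‖ / 2 < ‖k p.1 - k p.2‖ :=
        hc1.eventually (lt_mem_nhds (by simpa using half_lt_self hpos))
      have e2 : ∀ᶠ p : ℝ × ℝ in 𝓝 (a, b), |p.1 - p.2| < |a - b| + 1 :=
        hc2.eventually (gt_mem_nhds (by simp))
      refine ⟨_, e1.and e2, ‖k a - k b‖ / 2 / (|a - b| + 1), by positivity, ?_⟩
      rintro p ⟨hp1, hp2⟩
      rw [div_mul_eq_mul_div, div_le_iff₀ (by positivity)]
      nlinarith [abs_nonneg (p.1 - p.2), norm_nonneg (k p.1 - k p.2)]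
  -- far away
  obtain ⟨H, hH⟩ : ∃ H : ℝ, ∀ l, |l| ≤ R → |(k l).2| ≤ H := by
    have hc : IsCompact (Icc (-R) R) := isCompact_Icc
    obtain ⟨H, hH⟩ := hc.exists_bound_of_continuousOn
      (f := fun l => (k l).2) (continuous_snd.comp h.smooth.continuous).continuousOn
    exact ⟨H, fun l hl => hH l (abs_le.1 hl)⟩
  set M : ℝ := |R| + 2 * |H| + 1 with hM
  have hfar : ∀ l l', M ≤ |l| → 1 / 2 * |l - l'| ≤ ‖k l - k l'‖ := by
    intro l l' hl
    have hRl : R ≤ |l| := by
      have := le_abs_self R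
      have := abs_nonneg H
      linarith
    have hkl := h.ends l hRl
    have h2 : |l - (k l').2| ≤ ‖k l - k l'‖ := by
      have := norm_snd_le (k l - k l')
      rw [hkl] at this ⊢
      simpa using this
    by_cases hl' : R ≤ |l'|
    · rw [h.ends l' hl'] at h2
      have h3 : |l - l'| ≤ ‖k l - k l'‖ := by
        rw [h.ends l' hl']
        exact h2
      nlinarith [abs_nonneg (l - l')]
    · have h3 := hH l' (not_le.1 hl').le
      have h4 : |l| - |H| ≤ |l - (k l').2| := by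
        have := abs_sub_abs_le_abs_sub l (k l').2
        have := le_abs_self H
        linarith
      have h5 : |l - l'| ≤ |l| + |R| := by
        have h6 := abs_sub l l'
        have h7 := le_abs_self R
        linarith [not_le.1 hl']
      linarith
  -- the compact part
  have hcomp : ∃ c > 0, ∀ p ∈ Icc (-M) M ×ˢ Icc (-M) M, c * |p.1 - p.2| ≤ ‖k p.1 - k p.2‖ := by
    have hc : IsCompact (Icc (-M) M ×ˢ Icc (-M) M) := isCompact_Icc.prod isCompact_Icc
    refine hc.induction_on (p := fun t => ∃ c > 0, ∀ p ∈ t, c * |p.1 - p.2| ≤ ‖k p.1 - k p.2‖)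
      ?_ ?_ ?_ ?_
    · exact ⟨1, one_pos, fun p hp => absurd hp (Set.notMem_empty p)⟩
    · rintro s t hst ⟨c, hc, hc'⟩
      exact ⟨c, hc, fun p hp => hc' p (hst hp)⟩
    · rintro s t ⟨c, hc, hc'⟩ ⟨d, hd, hd'⟩
      refine ⟨min c d, lt_min hc hd, ?_⟩
      rintro p (hp | hp)
      · exact (mul_le_mul_of_nonneg_right (min_le_left c d) (abs_nonneg _)).trans (hc' p hp)
      · exact (mul_le_mul_of_nonneg_right (min_le_right c d) (abs_nonneg _)).trans (hd' p hp)
    · intro q _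
      obtain ⟨t, ht, hc⟩ := hloc q
      exact ⟨t, mem_nhdsWithin_of_mem_nhds ht, hc⟩
  obtain ⟨c, hc, hc'⟩ := hcomp
  refine ⟨min c (1 / 2), lt_min hc (by norm_num), ?_⟩
  intro l l'
  by_cases h1 : M ≤ |l|
  · exact (mul_le_mul_of_nonneg_right (min_le_right _ _) (abs_nonneg _)).trans (hfar l l' h1)
  · by_cases h2 : M ≤ |l'|
    · have := hfar l' l h2
      rw [abs_sub_comm, norm_sub_rev] at this
      exact (mul_le_mul_of_nonneg_right (min_le_right _ _) (abs_nonneg _)).trans this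
    · refine (mul_le_mul_of_nonneg_right (min_le_left _ _) (abs_nonneg _)).trans
        (hc' (l, l') ⟨abs_le.1 (not_le.1 h1).le, abs_le.1 (not_le.1 h2).le⟩)

/-- small perturbations of long knots are long knots -/
theorem Long.perturb {R R' : ℝ} {k : ℝ → ℂ × ℝ} (h : Long R k) (hR : R ≤ R') :
    ∃ c > 0, ∀ p : ℝ → ℂ × ℝ, ContDiff ℝ ∞ p → (∀ l, R' ≤ |l| → p l = 0) →
      (∀ l, ‖deriv p l‖ ≤ c) → ∀ s ∈ Icc (0 : ℝ) 1, Long R' (fun l => k l + s • p l) := by
  obtain ⟨c, hc, hk⟩ := h.lip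
  refine ⟨c / 2, half_pos hc, ?_⟩
  intro p hp hp0 hpd s hs
  have hLip : ∀ l l', ‖p l - p l'‖ ≤ c / 2 * |l - l'| := by
    intro l l'
    have := Convex.norm_image_sub_le_of_norm_deriv_le (f := p) (s := univ) (C := c / 2)
      (fun x _ => (hp.differentiable (by simp)) x) (fun x _ => hpd x) convex_univ
      (mem_univ l') (mem_univ l)
    simpa [Real.norm_eq_abs] using this
  have hdk : ∀ l, c ≤ ‖deriv k l‖ := by
    intro l
    have h1 : HasDerivAt k (deriv k l) l := (h.smooth.differentiable (by simp) l).hasDerivAt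
    have h2 := h1.tendsto_slope.norm
    have h3 : ∀ᶠ x in 𝓝[≠] l, c ≤ ‖slope k l x‖ := by
      filter_upwards [self_mem_nhdsWithin] with x hx
      rw [slope_def_module, norm_smul, norm_inv, Real.norm_eq_abs]
      have h4 := hk x l
      have h5 : 0 < |x - l| := abs_pos.2 (sub_ne_zero.2 hx)
      rw [inv_mul_eq_div, le_div_iff₀ h5]
      exact h4
    exact ge_of_tendsto h2 h3
  refine ⟨h.smooth.add (hp.const_smul s), ?_, ?_, ?_⟩
  · intro l hl
    have h1 : HasDerivAt k (deriv k l) l := (h.smooth.differentiable (by simp) l).hasDerivAt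
    have h2 : HasDerivAt p (deriv p l) l := (hp.differentiable (by simp) l).hasDerivAt
    have h3 : HasDerivAt (fun l => k l + s • p l) (deriv k l + s • deriv p l) l :=
      h1.add (h2.const_smul s)
    rw [h3.deriv] at hl
    have h4 : ‖deriv k l‖ = ‖s • deriv p l‖ := by
      rw [← norm_neg (s • deriv p l)]
      congr 1
      exact eq_neg_of_add_eq_zero_left hl
    rw [norm_smul, Real.norm_eq_abs, abs_of_nonneg hs.1] at h4
    have h5 := hdk l
    have h6 := hpd l
    nlinarith [hs.1, hs.2, norm_nonneg (deriv p l)]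
  · intro l l' hll
    by_contra hne
    have h1 : k l - k l' = -(s • (p l - p l')) := by
      have : k l + s • p l = k l' + s • p l' := hll
      rw [smul_sub]
      have h2 : k l = k l' + s • p l' - s • p l := eq_sub_of_add_eq this
      rw [h2]
      abel
    have h2 := hk l l'
    rw [h1, norm_neg, norm_smul, Real.norm_eq_abs, abs_of_nonneg hs.1] at h2
    have h3 := hLip l l'
    have h4 : 0 < |l - l'| := abs_pos.2 (sub_ne_zero.2 hne)
    nlinarith [hs.1, hs.2, norm_nonneg (p l - p l')]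
  · intro l hl
    simp only [hp0 l hl, smul_zero, add_zero]
    exact h.ends l (hR.trans hl)

/-- a long knot can be replaced by a small perturbation -/
theorem Long.iso_perturb {R R' : ℝ} {k : ℝ → ℂ × ℝ} (h : Long R k) (hR : R ≤ R') :
    ∃ c > 0, ∀ p : ℝ → ℂ × ℝ, ContDiff ℝ ∞ p → (∀ l, R' ≤ |l| → p l = 0) →
      (∀ l, ‖deriv p l‖ ≤ c) → Long R' (fun l => k l + p l) ∧
        ∃ F : Equiv.Perm (ℂ × ℝ), Move ⊥ univ F ∧ ∀ l, F (k l) = k l + p l := by
  obtain ⟨c, hc, hcc⟩ := h.perturb hR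
  refine ⟨c, hc, ?_⟩
  intro p hp hp0 hpd
  have h1 := hcc p hp hp0 hpd
  obtain ⟨F, hF, hF'⟩ := iso_long (R := R') (k := fun s l => k l + s • p l)
    (fun s _ l => by
      have e1 : ContDiff ℝ ∞ (fun q : ℝ × ℝ => k q.2 + q.1 • p q.2) :=
        (h.smooth.comp contDiff_snd).add (contDiff_fst.smul (hp.comp contDiff_snd))
      exact e1.contDiffAt) h1
  refine ⟨?_, F, hF, ?_⟩
  · have := h1 1 ⟨zero_le_one, le_rfl⟩
    simpa using this
  · intro l
    have := hF' l
    simpa using this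

end Pool.Agent.LKN
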